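import Pool.Agent.Lib.MP_534936_co.Gn.Final
import Pool.Agent.Lib.MP_534936_co.Gn.GenBridge

/-!
# Hadwiger's conjecture for all circular-arc graphs

The arc of the vertex `v` is the closed arc of the circle `ℝ / ℤ` which starts at `s v` and has length `l v`; its
points are the real numbers `x` with `Int.fract (x - s v) ≤ l v`. The arcs may cover the circle in any way.
-/

set_option autoImplicit false

namespace Pool.Agent.Results.MP_534936_co.AllCircularArc

open Pool.Agent.Lib.MP_534936_co

/-- Let `G` be the intersection graph of finitely many closed arcs of a circle. Then `G` is a generalized quasi-line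
graph and has a complete minor with `χ(G)` branch sets. -/
theorem result (V : Type) [Fintype V] (G : SimpleGraph V) (s l : V → ℝ) (hl : ∀ v, 0 ≤ l v)
    (hG : ∀ u v, G.Adj u v ↔
      u ≠ v ∧ ∃ x : ℝ, Int.fract (x - s u) ≤ l u ∧ Int.fract (x - s v) ≤ l v) :
    (∀ S : Set V, S.Nonempty →
      ∃ u ∈ S, ∃ A B : Set V, G.IsClique A ∧ G.IsClique B ∧
        A ∪ B = {v | v ∈ S ∧ G.Adj u v}) ∧
    ∀ k : ℕ, G.chromaticNumber = (k : ℕ∞) →
      ∃ f : Fin k → Set V,
        (∀ i, (G.induce (f i)).Connected) ∧
        (∀ i j, i ≠ j →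
          Disjoint (f i) (f j) ∧ ∃ x ∈ f i, ∃ y ∈ f j, G.Adj x y) :=
  Gn.final Gn.gen V G s l hl hG

end Pool.Agent.Results.MP_534936_co.AllCircularArc
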