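import Mathlib
import Pool.Agent.Lib.MP_534936_co.AQ.Main

/-!
# Hadwiger's conjecture for almost all generalized quasi-line graphs

All but an exponentially small proportion of the generalized quasi-line graphs with vertex set
`{0, ..., n - 1}` are a union of a stable set and two cliques and satisfy Hadwiger's conjecture.
-/

namespace Pool.Agent.Results.MP_534936_co.AlmostAll

/-- Generalized quasi-line graphs: every nonempty set `S` of vertices contains a vertex whose
neighbours in `S` form a union of two cliques. -/
def GenQuasiLine {n : ℕ} (G : SimpleGraph (Fin n)) : Prop :=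
  ∀ S : Set (Fin n), S.Nonempty →
    ∃ u ∈ S, ∃ A B : Set (Fin n), G.IsClique A ∧ G.IsClique B ∧ A ∪ B = {v | v ∈ S ∧ G.Adj u v}

/-- Hadwiger's conjecture for `G`: there are `k` disjoint connected pairwise adjacent sets of
vertices, where `k` is the chromatic number. -/
def Hadwiger {n : ℕ} (G : SimpleGraph (Fin n)) : Prop :=
  ∀ k : ℕ, G.chromaticNumber = (k : ℕ∞) →
    ∃ f : Fin k → Set (Fin n),
      (∀ i, (G.induce (f i)).Connected) ∧
      (∀ i j, i ≠ j →
        Disjoint (f i) (f j) ∧ ∃ x ∈ f i, ∃ y ∈ f j, G.Adj x y)

/-- The vertex set is a union of a stable set and two cliques. -/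
def StableTwoCliques {n : ℕ} (G : SimpleGraph (Fin n)) : Prop :=
  ∃ S A B : Set (Fin n), S ∪ A ∪ B = Set.univ ∧ Gᶜ.IsClique S ∧ G.IsClique A ∧ G.IsClique B

open Pool.Agent.Lib.MP_534936_co.AQ

theorem gq_iff {n : ℕ} (G : SimpleGraph (Fin n)) : GQ G ↔ GenQuasiLine G := by
  classical
  constructor
  · intro h S hS
    obtain ⟨u, hu, A, B, hA, hB, hAB⟩ := h S.toFinset (by simpa using hS)
    refine ⟨u, by simpa using hu, (A : Set (Fin n)), (B : Set (Fin n)), ?_, ?_, ?_⟩
    · intro a ha b hb hab
      exact hA a (by simpa using ha) b (by simpa using hb) hab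
    · intro a ha b hb hab
      exact hB a (by simpa using ha) b (by simpa using hb) hab
    · ext v
      have := hAB v
      simpa using this
  · intro h X hX
    obtain ⟨u, hu, A, B, hA, hB, hAB⟩ := h (X : Set (Fin n)) (by simpa using hX)
    refine ⟨u, by simpa using hu, A.toFinset, B.toFinset, ?_, ?_, ?_⟩
    · intro a ha b hb hab
      exact hA (by simpa using ha) (by simpa using hb) hab
    · intro a ha b hb hab
      exact hB (by simpa using ha) (by simpa using hb) hab
    · intro v
      have : v ∈ A ∪ B ↔ v ∈ {v | v ∈ (X : Set (Fin n)) ∧ G.Adj u v} := by rw [hAB]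
      simpa using this

theorem tem_iff {n : ℕ} (G : SimpleGraph (Fin n)) : Tem G ↔ StableTwoCliques G := by
  classical
  constructor
  · rintro ⟨S, A, B, h, hS, hA, hB⟩
    refine ⟨(S : Set (Fin n)), (A : Set (Fin n)), (B : Set (Fin n)), ?_, ?_, ?_, ?_⟩
    · ext v
      have := h v
      simpa [or_assoc] using this
    · intro a ha b hb hab
      rw [SimpleGraph.compl_adj]
      exact ⟨hab, hS a (by simpa using ha) b (by simpa using hb)⟩
    · intro a ha b hb hab
      exact hA a (by simpa using ha) b (by simpa using hb) hab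
    · intro a ha b hb hab
      exact hB a (by simpa using ha) b (by simpa using hb) hab
  · rintro ⟨S, A, B, h, hS, hA, hB⟩
    refine ⟨S.toFinset, A.toFinset, B.toFinset, ?_, ?_, ?_, ?_⟩
    · intro v
      have : v ∈ S ∪ A ∪ B := by rw [h]; trivial
      simpa [or_assoc] using this
    · intro a ha b hb hab
      have hne : a ≠ b := hab.ne
      have := hS (by simpa using ha) (by simpa using hb) hne
      rw [SimpleGraph.compl_adj] at this
      exact this.2 hab
    · intro a ha b hb hab
      exact hA (by simpa using ha) (by simpa using hb) hab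
    · intro a ha b hb hab
      exact hB (by simpa using ha) (by simpa using hb) hab

/-- There is `c > 0` such that for all large `n` at most a proportion `2 ^ (-c n)` of the
generalized quasi-line graphs on `n` labelled vertices violates Hadwiger's conjecture or is not
a union of a stable set and two cliques. -/
theorem result :
    ∃ c : ℝ, 0 < c ∧ ∃ N : ℕ, ∀ n ≥ N,
      (Nat.card {G : SimpleGraph (Fin n) //
          GenQuasiLine G ∧ ¬ (StableTwoCliques G ∧ Hadwiger G)} : ℝ) ≤
        (2 : ℝ) ^ (-(c * n)) * Nat.card {G : SimpleGraph (Fin n) // GenQuasiLine G} := by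
  classical
  obtain ⟨c, hc, N, h⟩ := main
  refine ⟨c, hc, N, fun n hn => ?_⟩
  have h1 := h n hn
  have e1 : Nat.card {G : SimpleGraph (Fin n) //
      GenQuasiLine G ∧ ¬ (StableTwoCliques G ∧ Hadwiger G)} =
      num n fun G => ¬ (Tem G ∧ Had G) := by
    rw [Nat.card_eq_fintype_card, Fintype.card_subtype, num]
    congr 1
    ext G
    simp only [Finset.mem_filter, Finset.mem_univ, true_and, gq_iff, tem_iff]
    exact Iff.rfl
  have e2 : Nat.card {G : SimpleGraph (Fin n) // GenQuasiLine G} = gg n := by
    rw [Nat.card_eq_fintype_card, Fintype.card_subtype, gg, num]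
    congr 1
    ext G
    simp only [Finset.mem_filter, Finset.mem_univ, true_and, gq_iff, and_true]
  rw [e1, e2]
  exact h1

end Pool.Agent.Results.MP_534936_co.AlmostAll
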