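import Pool.Agent.Lib.MP_534936_co.Net.FinalNet
import Pool.Agent.Lib.MP_534936_co.Net.CircT

/-!
# Hadwiger's conjecture for intervals on networks

A network has roads `f : E`, each a copy of the interval `[0, 1]`; its end `0` is glued to the node `tl f` and its end `1`
to the node `hd f` (roads with the same ends and loops are allowed). A vertex `v` of the graph is the closed interval
`[s v, t v]` of the road `rd v`; it contains the node `x` iff it contains an end of its road which is glued to `x`. Two
vertices are adjacent iff they meet on a common road or contain a common node.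
-/

set_option autoImplicit false

namespace Pool.Agent.Results.MP_534936_co.NetworkIntervals

open Pool.Agent.Lib.MP_534936_co

/-- Every graph `G` of finitely many closed intervals on the roads of a network is a generalized quasi-line graph and
has a complete minor with `χ(G)` branch sets. -/
theorem result (V N E : Type) [Fintype V] (G : SimpleGraph V) (tl hd : E → N) (rd : V → E)
    (s t : V → ℝ) (hst : ∀ v, 0 ≤ s v ∧ s v ≤ t v ∧ t v ≤ 1)
    (hG : ∀ u v, G.Adj u v ↔ u ≠ v ∧
      ((rd u = rd v ∧ ∃ z : ℝ, (s u ≤ z ∧ z ≤ t u) ∧ (s v ≤ z ∧ z ≤ t v)) ∨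
        ∃ x : N, ((s u = 0 ∧ tl (rd u) = x) ∨ (t u = 1 ∧ hd (rd u) = x)) ∧
          ((s v = 0 ∧ tl (rd v) = x) ∨ (t v = 1 ∧ hd (rd v) = x)))) :
    (∀ S : Set V, S.Nonempty →
      ∃ u ∈ S, ∃ A B : Set V, G.IsClique A ∧ G.IsClique B ∧
        A ∪ B = {v | v ∈ S ∧ G.Adj u v}) ∧
    ∀ k : ℕ, G.chromaticNumber = (k : ℕ∞) →
      ∃ f : Fin k → Set V,
        (∀ i, (G.induce (f i)).Connected) ∧
        (∀ i j, i ≠ j →
          Disjoint (f i) (f j) ∧ ∃ x ∈ f i, ∃ y ∈ f j, G.Adj x y) :=
  Net.final_net Net.circ V N E G tl hd rd s t hst hG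

end Pool.Agent.Results.MP_534936_co.NetworkIntervals
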