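import Pool.Agent.Lib.MP_534936_co.TT32.Bound

set_option autoImplicit false

namespace Pool.Agent.Results.MP_534936_co.TwoThirdsBound

universe u

open Pool.Agent.Lib.MP_534936_co.TT32

/-- Let `G` be a finite graph which is not `d`-colourable, such that every vertex set `S` for which
`G[S]` is not `d`-colourable contains a vertex `u` whose neighbourhood in `S` is a union of two
cliques and has at most `m` vertices. Then `G` has `2d + 1 - min (m, max (d, ⌊(4d - 2)/3⌋))` disjoint
connected pairwise adjacent vertex sets, one of which is a single vertex. -/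
theorem result {V : Type u} [Finite V] (G : SimpleGraph V) (d m : ℕ) (hchi : ¬ G.Colorable d)
    (h : ∀ S : Set V, ¬ (G.induce S).Colorable d → ∃ u ∈ S, ∃ A B : Set V,
      G.IsClique A ∧ G.IsClique B ∧ A ∪ B = {v | v ∈ S ∧ G.Adj u v} ∧ (A ∪ B).ncard ≤ m) :
    ∃ f : Fin (2 * d + 1 - min m (max d ((4 * d - 2) / 3))) → Set V,
      (∃ i u, f i = {u}) ∧ (∀ i, (G.induce (f i)).Connected) ∧
      ∀ i j, i ≠ j → Disjoint (f i) (f j) ∧ ∃ x ∈ f i, ∃ y ∈ f j, G.Adj x y := by
  classical
  have huniv : ¬ (G.induce (Set.univ : Set V)).Colorable d := by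
    intro hc
    let e : G →g G.induce (Set.univ : Set V) :=
      { toFun := fun a => ⟨a, trivial⟩, map_rel' := fun hab => hab }
    exact hchi (hc.of_hom e)
  obtain ⟨S, hS, hmin⟩ := Set.exists_min_image {S : Set V | ¬ (G.induce S).Colorable d} Set.ncard
    (Set.toFinite _) ⟨Set.univ, huniv⟩
  have hS' : ¬ (G.induce S).Colorable d := hS
  obtain ⟨u, hu, A, B, hA, hB, hAB, hcard⟩ := h S hS'
  let H : SimpleGraph S := G.induce S
  let v : S := ⟨u, hu⟩
  -- `G[S]` is vertex-critical
  have hHc : ∀ w : S, (H.induce {a : S | a ≠ w}).Colorable d := by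
    intro w
    have hless : (S \ {(w : V)}).ncard < S.ncard :=
      Set.ncard_sdiff_singleton_lt_of_mem w.2 (Set.toFinite _)
    have hcol : (G.induce (S \ {(w : V)})).Colorable d := by
      by_contra hn
      exact absurd (hmin _ hn) (not_le.2 hless)
    let e : H.induce {a : S | a ≠ w} →g G.induce (S \ {(w : V)}) :=
      { toFun := fun a => ⟨a.1.1, a.1.2, fun he => a.2 (Subtype.ext he)⟩
        map_rel' := fun hab => hab }
    exact hcol.of_hom e
  have hA' : H.IsClique (Subtype.val ⁻¹' A : Set S) := by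
    intro a ha b hb hab
    exact hA ha hb fun he => hab (Subtype.ext he)
  have hB' : H.IsClique (Subtype.val ⁻¹' B : Set S) := by
    intro a ha b hb hab
    exact hB ha hb fun he => hab (Subtype.ext he)
  have hAB' : (Subtype.val ⁻¹' A : Set S) ∪ (Subtype.val ⁻¹' B : Set S) = H.neighborSet v := by
    ext a
    have h1 : (a : V) ∈ A ∪ B ↔ (a : V) ∈ {v | v ∈ S ∧ G.Adj u v} := by rw [hAB]
    constructor
    · intro ha
      exact (h1.1 ha).2
    · intro ha
      exact h1.2 ⟨a.2, ha⟩
  have hdeg : ((Subtype.val ⁻¹' A : Set S) ∪ (Subtype.val ⁻¹' B : Set S)).ncard ≤ m := by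
    refine le_trans ?_ hcard
    have h2 : (Subtype.val ⁻¹' A : Set S) ∪ (Subtype.val ⁻¹' B : Set S) =
        Subtype.val ⁻¹' (A ∪ B) := rfl
    rw [h2, ← Set.ncard_image_of_injective (Subtype.val ⁻¹' (A ∪ B) : Set S) Subtype.val_injective]
    exact Set.ncard_le_ncard (Set.image_preimage_subset _ _) (Set.toFinite _)
  obtain ⟨f, ⟨i0, hi0⟩, hconn, hadj⟩ := three_bound H v d (2 * d + 1 - min m (max d ((4 * d - 2) / 3))) hS' hHc
    _ _ hA' hB' hAB' (by omega) (by omega)
  refine ⟨fun i => Subtype.val '' f i, ⟨i0, u, ?_⟩, fun i => ?_, fun i j hij => ⟨?_, ?_⟩⟩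
  · simp only [hi0, Set.image_singleton]
    rfl
  · let e : H.induce (f i) →g G.induce (Subtype.val '' f i) :=
      { toFun := fun a => ⟨a.1.1, a.1, a.2, rfl⟩
        map_rel' := fun hab => hab }
    refine (hconn i).map e ?_
    rintro ⟨a, b, hb, rfl⟩
    exact ⟨⟨b, hb⟩, rfl⟩
  · exact (Set.disjoint_image_iff Subtype.val_injective).2 (hadj i j hij).1
  · obtain ⟨x, hx, y, hy, hxy⟩ := (hadj i j hij).2
    exact ⟨x.1, ⟨x, hx, rfl⟩, y.1, ⟨y, hy, rfl⟩, hxy⟩

end Pool.Agent.Results.MP_534936_co.TwoThirdsBound
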